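import Mathlib
import Pool.Prelude.Def_F_2fcaa438

/-! Sets without nontrivial solutions of `x+2y+3z=x'+2y'+3z'`: statements of the pieces. -/

set_option autoImplicit false
open Ne40b1b74 Finset Filter Topology

namespace Pool.Agent.H423R2.ZH

/-- the primes we use: `p ≡ 4, 7 mod 9`, and `10` times a cube is a primitive cube root of unity -/
def Good (p : ℕ) : Prop :=
  p.Prime ∧ p % 3 = 1 ∧ p % 9 ≠ 1 ∧ ∃ c : ℕ, p ∣ 100 * c ^ 6 + 10 * c ^ 3 + 1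

/-- there are infinitely many of them -/
def S_PR : Prop := ∀ n : ℕ, ∃ p, n < p ∧ Good p

/-- `-5/4` is not a cube in the fields we use -/
def S_TAU : Prop := ∀ (p : ℕ), Good p → 5 < p → ∀ (m : ℕ), m % 3 = 1 →
  ∀ (F : Type) [Field F] [Fintype F], CharP F p → Fintype.card F = p ^ m →
  ∀ τ : F, 4 * τ ^ 3 ≠ -5

/-- the algebra -/
def S_ALG : Prop := ∀ (F : Type) [Field F], (2 : F) ≠ 0 → (3 : F) ≠ 0 → (5 : F) ≠ 0 →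
  (∀ τ : F, 4 * τ ^ 3 ≠ -5) → ∀ x y z x' y' z' : F,
  x + 2 * y + 3 * z = x' + 2 * y' + 3 * z' →
  x ^ 2 + 2 * y ^ 2 + 3 * z ^ 2 = x' ^ 2 + 2 * y' ^ 2 + 3 * z' ^ 2 →
  x ^ 3 + 2 * y ^ 3 + 3 * z ^ 3 = x' ^ 3 + 2 * y' ^ 3 + 3 * z' ^ 3 →
  x ^ 4 + 2 * y ^ 4 + 3 * z ^ 4 = x' ^ 4 + 2 * y' ^ 4 + 3 * z' ^ 4 →
  (x = x' ∧ y = y' ∧ z = z') ∨ (x = y ∧ x = z' ∧ x' = y' ∧ x' = z) ∨
    (3 * z' = 2 * z + x' ∧ z ≠ z')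

/-- the sphere -/
def S_SPH : Prop := ∀ (m r : ℕ), ∃ S : Finset (Fin m → ℕ),
  (∀ f ∈ S, ∀ i, f i < r) ∧
  (∀ f ∈ S, ∀ g ∈ S, ∀ h ∈ S, (∀ i, 3 * h i = 2 * f i + g i) → f = h) ∧
  r ^ m ≤ S.card * (m * r ^ 2 + 1)

/-- uniqueness of digits -/
def S_COD : Prop := ∀ (B n : ℕ) (f g : ℕ → ℕ), (∀ i, f i < B) → (∀ i, g i < B) →
  ∑ i ∈ range n, f i * B ^ i = ∑ i ∈ range n, g i * B ^ i → ∀ i < n, f i = g i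

/-- size of a digit sum -/
def S_CODLT : Prop := ∀ (B n : ℕ) (f : ℕ → ℕ), (∀ i, f i < B) →
  ∑ i ∈ range n, f i * B ^ i < B ^ n

/-- the construction -/
def S_ENC : Prop := ∀ (p r m : ℕ), Good p → 5 < p → m % 3 = 1 → 3 * r ≤ p →
  ∃ A : Finset ℕ, A ⊆ Icc 1 ((6 * p) ^ (4 * m)) ∧ ZhaoSolutionFree A ∧
    r ^ m ≤ A.card * (m * r ^ 2 + 1)

/-- `g` is at least the size of a solution free set -/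
def S_GLE : Prop := ∀ (N : ℕ) (A : Finset ℕ), A ⊆ Icc 1 N → ZhaoSolutionFree A → A.card ≤ g N

/-- analysis, one prime -/
def S_ASY : Prop := ∀ ε : ℝ, 0 < ε → ε < 1 / 4 → ∃ P₀ : ℕ, ∀ p ≥ P₀, ∀ r : ℕ, p ≤ 6 * r →
  ∃ M₀ : ℕ, ∀ m ≥ M₀,
    ((m : ℝ) * r ^ 2 + 1) * ((6 * (p : ℝ)) ^ (4 * ((m : ℝ) + 3))) ^ (1 / 4 - ε) ≤ (r : ℝ) ^ m

/-- the `ε` form of the theorem -/
def S_EPS : Prop := ∀ ε : ℝ, 0 < ε → ∀ᶠ N : ℕ in atTop, (N : ℝ) ^ (1 / 4 - ε) ≤ (g N : ℝ)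

/-- the assembly (uses `S_PR`, `S_ENC`, `S_GLE`, `S_ASY`) -/
def S_FIN : Prop := S_PR → S_ENC → S_GLE → S_ASY → S_EPS

/-- from `ε` to `o(1)` -/
def S_LIT : Prop := ∀ G : ℕ → ℝ,
  (∀ ε : ℝ, 0 < ε → ∀ᶠ N : ℕ in atTop, (N : ℝ) ^ (1 / 4 - ε) ≤ G N) →
  ∃ h : ℕ → ℝ, Tendsto h atTop (𝓝 0) ∧ ∀ᶠ N : ℕ in atTop, (N : ℝ) ^ (1 / 4 - h N) ≤ G N

end Pool.Agent.H423R2.ZH
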