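import Mathlib
import Pool.Agent.H423R2.ZH.Stubs

set_option autoImplicit false

namespace Pool.Agent.H423R2.ZH.PALG

variable {F : Type} [Field F]

/-- the core, in the coordinates `u, v` -/
theorem core (h2 : (2 : F) ≠ 0) (h3 : (3 : F) ≠ 0) (h5 : (5 : F) ≠ 0)
    (hτ : ∀ τ : F, 4 * τ ^ 3 ≠ -5) (u v u' v' : F)
    (e2 : u ^ 2 + v ^ 2 = u' ^ 2 + v' ^ 2)
    (e3 : u ^ 2 * (u + 3 * v) = u' ^ 2 * (u' + 3 * v'))
    (e4 : u ^ 2 * (u ^ 2 + 2 * u * v + 2 * v ^ 2) = u' ^ 2 * (u' ^ 2 + 2 * u' * v' + 2 * v' ^ 2)) :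
    (u = u' ∧ v = v') ∨ (u = 0 ∧ u' = 0 ∧ v' = -v) ∨
      (u = -3 * v ∧ u' = -3 * v' ∧ v' = -v ∧ v ≠ 0) := by
  -- the case u = 0
  have key0 : ∀ a b : F, a ^ 2 * (a + 3 * b) = 0 → a ^ 2 * (a ^ 2 + 2 * a * b + 2 * b ^ 2) = 0 →
      a = 0 := by
    intro a b h1 h2'
    by_contra ha
    have ha2 : a ^ 2 ≠ 0 := pow_ne_zero 2 ha
    have q1 : a + 3 * b = 0 := (mul_eq_zero.mp h1).resolve_left ha2
    have q2 : a ^ 2 + 2 * a * b + 2 * b ^ 2 = 0 := (mul_eq_zero.mp h2').resolve_left ha2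
    have q3 : 5 * b ^ 2 = 0 := by linear_combination q2 - (a - b) * q1
    have q4 : b = 0 := by
      have := (mul_eq_zero.mp q3).resolve_left h5
      exact pow_eq_zero_iff (two_ne_zero) |>.mp this
    apply ha
    rw [q4] at q1
    simpa using q1
  have vsame : u = 0 → u' = 0 → (u = u' ∧ v = v') ∨ (u = 0 ∧ u' = 0 ∧ v' = -v) := by
    intro h h'
    have : (v - v') * (v + v') = 0 := by
      rw [h, h'] at e2; linear_combination e2
    rcases mul_eq_zero.mp this with h6 | h6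
    · left; exact ⟨by rw [h, h'], sub_eq_zero.mp h6⟩
    · right; exact ⟨h, h', by linear_combination h6⟩
  by_cases hu : u = 0
  · have hu' : u' = 0 := by
      apply key0 u' v'
      · rw [← e3, hu]; ring
      · rw [← e4, hu]; ring
    rcases vsame hu hu' with h | h
    · exact Or.inl h
    · exact Or.inr (Or.inl h)
  by_cases hu' : u' = 0
  · exfalso
    apply hu
    apply key0 u v
    · rw [e3, hu']; ring
    · rw [e4, hu']; ring
  by_cases huu : u = u'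
  · left
    refine ⟨huu, ?_⟩
    rw [← huu] at e3
    have h6 : u ^ 2 * (3 * (v - v')) = 0 := by linear_combination e3
    have h7 := (mul_eq_zero.mp h6).resolve_left (pow_ne_zero 2 hu)
    have h8 := (mul_eq_zero.mp h7).resolve_left h3
    exact sub_eq_zero.mp h8
  right; right
  have hd : u - u' ≠ 0 := sub_ne_zero.mpr huu
  obtain ⟨I2, hI2⟩ : ∃ I2, I2 = u ^ 2 + v ^ 2 := ⟨_, rfl⟩
  obtain ⟨I3, hI3⟩ : ∃ I3, I3 = u ^ 2 * (u + 3 * v) := ⟨_, rfl⟩
  obtain ⟨I4, hI4⟩ : ∃ I4, I4 = u ^ 2 * (u ^ 2 + 2 * u * v + 2 * v ^ 2) := ⟨_, rfl⟩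
  have hI2' : I2 = u' ^ 2 + v' ^ 2 := hI2.trans e2
  have hI3' : I3 = u' ^ 2 * (u' + 3 * v') := hI3.trans e3
  have hI4' : I4 = u' ^ 2 * (u' ^ 2 + 2 * u' * v' + 2 * v' ^ 2) := hI4.trans e4
  have hK : ∀ a b : F, a ≠ 0 → I2 = a ^ 2 + b ^ 2 → I3 = a ^ 2 * (a + 3 * b) →
      I4 = a ^ 2 * (a ^ 2 + 2 * a * b + 2 * b ^ 2) →
      5 * a ^ 4 - 6 * I2 * a ^ 2 - 2 * I3 * a + 3 * I4 = 0 ∧
      3 * I2 * a ^ 4 + 2 * I3 * a ^ 3 - 6 * I4 * a ^ 2 + I3 ^ 2 = 0 := by
    intro a b ha q2 q3 q4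
    constructor
    · rw [q2, q3, q4]; ring
    · rw [q2, q3, q4]; ring
  obtain ⟨k1, g1⟩ := hK u v hu hI2 hI3 hI4
  obtain ⟨k2, g2⟩ := hK u' v' hu' hI2' hI3' hI4'
  obtain ⟨s, hs⟩ : ∃ s, s = u + u' := ⟨_, rfl⟩
  obtain ⟨q, hq⟩ : ∃ q, q = u * u' := ⟨_, rfl⟩
  have K1 : 5 * s * (s ^ 2 - 2 * q) - 6 * I2 * s - 2 * I3 = 0 := by
    apply mul_left_cancel₀ hd
    rw [hs, hq, mul_zero]
    linear_combination k1 - k2
  have K2 : 5 * q * (s ^ 2 - q) - 6 * I2 * q - 3 * I4 = 0 := by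
    apply mul_left_cancel₀ hd
    rw [hs, hq, mul_zero]
    linear_combination u' * k1 - u * k2
  have H1 : 3 * I2 * s * (s ^ 2 - 2 * q) + 2 * I3 * (s ^ 2 - q) - 6 * I4 * s = 0 := by
    apply mul_left_cancel₀ hd
    rw [hs, hq, mul_zero]
    linear_combination g1 - g2
  have H2 : 3 * I2 * q * (s ^ 2 - q) + 2 * I3 * q * s - 6 * I4 * q - I3 ^ 2 = 0 := by
    apply mul_left_cancel₀ hd
    rw [hs, hq, mul_zero]
    linear_combination u' * g1 - u * g2
  have E : s * ((s ^ 2 - 4 * q) * (5 * (s ^ 2 - q) - 3 * I2)) = 0 := by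
    linear_combination H1 + (s ^ 2 - q) * K1 - 2 * s * K2
  have hdisc : s ^ 2 - 4 * q ≠ 0 := by
    have : s ^ 2 - 4 * q = (u - u') ^ 2 := by rw [hs, hq]; ring
    rw [this]; exact pow_ne_zero 2 hd
  rcases mul_eq_zero.mp E with hs0 | E1
  · -- the rational configuration
    have hI30 : I3 = 0 := by
      have : 2 * I3 = 0 := by rw [hs0] at K1; linear_combination -K1
      exact (mul_eq_zero.mp this).resolve_left h2
    have r1 : u + 3 * v = 0 := by
      rw [hI30] at hI3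
      exact (mul_eq_zero.mp hI3.symm).resolve_left (pow_ne_zero 2 hu)
    have r2 : u' + 3 * v' = 0 := by
      rw [hI30] at hI3'
      exact (mul_eq_zero.mp hI3'.symm).resolve_left (pow_ne_zero 2 hu')
    have r3 : u + u' = 0 := by rw [← hs, hs0]
    have r4 : v + v' = 0 := by
      have : 3 * (v + v') = 0 := by linear_combination r1 + r2 - r3
      exact (mul_eq_zero.mp this).resolve_left h3
    refine ⟨by linear_combination r1, by linear_combination r2, by linear_combination r4, ?_⟩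
    intro hv
    apply hu
    rw [hv] at r1
    simpa using r1
  · exfalso
    have E2 : 5 * (s ^ 2 - q) - 3 * I2 = 0 := (mul_eq_zero.mp E1).resolve_left hdisc
    by_cases hs0 : s = 0
    · -- then 3 I2 = -5 q and I3 = 0, same as before: contradiction as q would be 0
      have hI30 : I3 = 0 := by
        have : 2 * I3 = 0 := by rw [hs0] at K1; linear_combination -K1
        exact (mul_eq_zero.mp this).resolve_left h2
      have P : 5 * q ^ 3 = 0 := by
        rw [hs0, hI30] at H2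
        rw [hs0] at E2 K2
        linear_combination -H2 + q ^ 2 * E2 + 2 * q * K2 + 0 * E2 - 4 * q ^ 2 * E2
      have hq0 : q = 0 := by
        have := (mul_eq_zero.mp P).resolve_left h5
        exact pow_eq_zero_iff (by norm_num) |>.mp this
      rw [hq] at hq0
      rcases mul_eq_zero.mp hq0 with h | h
      · exact hu h
      · exact hu' h
    · have T : 4 * q ^ 3 = -5 * s ^ 6 := by
        have T' : 5 * (4 * q ^ 3 + 5 * s ^ 6) = 0 := by
          have A : 2 * I3 + 5 * s ^ 3 = 0 := by linear_combination -K1 + 2 * s * E2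
          have B : 3 * I4 + 5 * q * (s ^ 2 - q) = 0 := by linear_combination -K2 + 2 * q * E2
          linear_combination (-4) * H2 + (-(2 * I3 - 5 * s ^ 3) + 4 * q * s) * A - 8 * q * B
            - 4 * q * (s ^ 2 - q) * E2
        have := (mul_eq_zero.mp T').resolve_left h5
        linear_combination this
      apply hτ (q / s ^ 2)
      field_simp
      linear_combination T

theorem alg : S_ALG := by
  intro F _ h2 h3 h5 hτ x y z x' y' z' e1 e2 e3 e4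
  have h6 : (6 : F) ≠ 0 := by
    have : (6 : F) = 2 * 3 := by norm_num
    rw [this]; exact mul_ne_zero h2 h3
  obtain ⟨s, hs⟩ : ∃ s : F, 6 * s = x + 2 * y + 3 * z :=
    ⟨(x + 2 * y + 3 * z) / 6, by field_simp⟩
  have hs' : 6 * s = x' + 2 * y' + 3 * z' := hs.trans e1
  -- coordinates
  obtain ⟨u, hu⟩ : ∃ u, u = y + z - 2 * s := ⟨_, rfl⟩
  obtain ⟨v, hv⟩ : ∃ v, v = z - s := ⟨_, rfl⟩
  obtain ⟨u', hu'⟩ : ∃ u', u' = y' + z' - 2 * s := ⟨_, rfl⟩
  obtain ⟨v', hv'⟩ : ∃ v', v' = z' - s := ⟨_, rfl⟩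
  have hz : z = s + v := by rw [hv]; ring
  have hz' : z' = s + v' := by rw [hv']; ring
  have hy : y = s + u - v := by rw [hu, hv]; ring
  have hy' : y' = s + u' - v' := by rw [hu', hv']; ring
  have hx : x = s - 2 * u - v := by rw [hu, hv]; linear_combination -hs
  have hx' : x' = s - 2 * u' - v' := by rw [hu', hv']; linear_combination -hs'
  have P2 : ∀ a b : F, (s - 2 * a - b) ^ 2 + 2 * (s + a - b) ^ 2 + 3 * (s + b) ^ 2
      = 6 * s ^ 2 + 6 * (a ^ 2 + b ^ 2) := by intro a b; ring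
  have P3 : ∀ a b : F, (s - 2 * a - b) ^ 3 + 2 * (s + a - b) ^ 3 + 3 * (s + b) ^ 3
      = 6 * s ^ 3 + 18 * s * (a ^ 2 + b ^ 2) - 6 * (a ^ 2 * (a + 3 * b)) := by intro a b; ring
  have P4 : ∀ a b : F, (s - 2 * a - b) ^ 4 + 2 * (s + a - b) ^ 4 + 3 * (s + b) ^ 4
      = 6 * s ^ 4 + 36 * s ^ 2 * (a ^ 2 + b ^ 2) - 24 * s * (a ^ 2 * (a + 3 * b))
        + 6 * (2 * (a ^ 2 * (a ^ 2 + 2 * a * b + 2 * b ^ 2)) + (a ^ 2 + b ^ 2) ^ 2) := by
    intro a b; ring
  rw [hx, hy, hz, hx', hy', hz', P2, P2] at e2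
  rw [hx, hy, hz, hx', hy', hz', P3, P3] at e3
  rw [hx, hy, hz, hx', hy', hz', P4, P4] at e4
  have q2 : u ^ 2 + v ^ 2 = u' ^ 2 + v' ^ 2 := by
    apply mul_left_cancel₀ h6; linear_combination e2
  have q3 : u ^ 2 * (u + 3 * v) = u' ^ 2 * (u' + 3 * v') := by
    apply mul_left_cancel₀ h6; linear_combination -e3 + 18 * s * q2
  have q4 : u ^ 2 * (u ^ 2 + 2 * u * v + 2 * v ^ 2)
      = u' ^ 2 * (u' ^ 2 + 2 * u' * v' + 2 * v' ^ 2) := by
    apply mul_left_cancel₀ h2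
    apply mul_left_cancel₀ h6
    linear_combination e4 - 36 * s ^ 2 * q2 + 24 * s * q3
      - 6 * (u ^ 2 + v ^ 2 + u' ^ 2 + v' ^ 2) * q2
  rcases core h2 h3 h5 hτ u v u' v' q2 q3 q4 with ⟨a, b⟩ | ⟨a, b, c⟩ | ⟨a, b, c, d⟩
  · left
    rw [hx, hy, hz, hx', hy', hz', a, b]
    exact ⟨rfl, rfl, rfl⟩
  · right; left
    rw [hx, hy, hz, hx', hy', hz', a, b, c]
    refine ⟨by ring, by ring, by ring, by ring⟩
  · right; right
    rw [hx', hz, hz', b, c]
    refine ⟨by ring, ?_⟩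
    intro h
    apply d
    have : 2 * v = 0 := by linear_combination h
    exact (mul_eq_zero.mp this).resolve_left h2

end Pool.Agent.H423R2.ZH.PALG
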