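import Mathlib
import Pool.Agent.H423R2.ZH.Stubs

set_option autoImplicit false

open Filter Topology

namespace Pool.Agent.H423R2.ZH.PASY

theorem asy : S_ASY := by
  intro ε h0 h1
  have hev : ∀ᶠ p : ℕ in atTop, (72 : ℝ) ≤ (p : ℝ) ^ (4 * ε) ∧ 1 ≤ p :=
    (((tendsto_rpow_atTop (by positivity : 0 < 4 * ε)).comp
      tendsto_natCast_atTop_atTop).eventually_ge_atTop 72).and (eventually_ge_atTop 1)
  rw [eventually_atTop] at hev
  obtain ⟨P0, hP0⟩ := hev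
  refine ⟨P0, fun p hp r hr => ?_⟩
  obtain ⟨h72, hp1⟩ := hP0 p hp
  have hp1' : (1 : ℝ) ≤ p := by exact_mod_cast hp1
  have hppos : (0 : ℝ) < p := by linarith
  have h6p : (0 : ℝ) < 6 * (p : ℝ) := by positivity
  obtain ⟨a, ha⟩ : ∃ a : ℝ, a = 1 - 4 * ε := ⟨_, rfl⟩
  have ha0 : 0 < a := by rw [ha]; linarith
  have ha1 : a ≤ 1 := by rw [ha]; linarith
  obtain ⟨Q, hQ⟩ : ∃ Q : ℝ, Q = (6 * (p : ℝ)) ^ a := ⟨_, rfl⟩
  have hQ1 : 1 ≤ Q := by
    rw [hQ]; exact Real.one_le_rpow (by linarith) ha0.le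
  have hQr : 2 * Q ≤ r := by
    have e1 : Q ≤ 6 * (p : ℝ) ^ a := by
      rw [hQ, Real.mul_rpow (by norm_num) hppos.le]
      apply mul_le_mul_of_nonneg_right _ (Real.rpow_nonneg hppos.le _)
      calc (6 : ℝ) ^ a ≤ 6 ^ (1 : ℝ) := Real.rpow_le_rpow_of_exponent_le (by norm_num) ha1
        _ = 6 := Real.rpow_one 6
    have e2 : (p : ℝ) ^ a * (p : ℝ) ^ (4 * ε) = p := by
      rw [← Real.rpow_add hppos, ha]
      have : 1 - 4 * ε + 4 * ε = (1 : ℝ) := by ring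
      rw [this, Real.rpow_one]
    have e3 : 72 * (p : ℝ) ^ a ≤ p := by
      calc 72 * (p : ℝ) ^ a ≤ (p : ℝ) ^ (4 * ε) * (p : ℝ) ^ a :=
            mul_le_mul_of_nonneg_right h72 (Real.rpow_nonneg hppos.le _)
        _ = p := by rw [mul_comm]; exact e2
    have e4 : (p : ℝ) ≤ 6 * r := by exact_mod_cast hr
    linarith
  have hrpos : (0 : ℝ) < r := by linarith
  have ht := tendsto_pow_const_div_const_pow_of_one_lt 1 (by norm_num : (1 : ℝ) < 2)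
  have hδ : (0 : ℝ) < 1 / (((r : ℝ) ^ 2 + 1) * Q ^ 3) := by positivity
  have hev2 := (ht.eventually_le_const hδ).and (eventually_ge_atTop 1)
  rw [eventually_atTop] at hev2
  obtain ⟨M0, hM0⟩ := hev2
  refine ⟨M0, fun m hm => ?_⟩
  obtain ⟨g1, g2⟩ := hM0 m hm
  have g2' : (1 : ℝ) ≤ m := by exact_mod_cast g2
  have e5 : ((6 * (p : ℝ)) ^ (4 * ((m : ℝ) + 3))) ^ (1 / 4 - ε) = Q ^ (m + 3) := by
    rw [← Real.rpow_mul h6p.le, hQ, ← Real.rpow_natCast, ← Real.rpow_mul h6p.le]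
    congr 1
    rw [ha]; push_cast; ring
  rw [e5]
  have e6 : ((m : ℝ) * r ^ 2 + 1) * Q ^ 3 ≤ 2 ^ m := by
    rw [pow_one, div_le_div_iff₀ (by positivity) (by positivity)] at g1
    calc ((m : ℝ) * r ^ 2 + 1) * Q ^ 3 ≤ ((m : ℝ) * (r ^ 2 + 1)) * Q ^ 3 := by
          apply mul_le_mul_of_nonneg_right _ (by positivity)
          nlinarith
      _ = m * ((r ^ 2 + 1) * Q ^ 3) := by ring
      _ ≤ 1 * 2 ^ m := g1
      _ = 2 ^ m := one_mul _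
  calc ((m : ℝ) * r ^ 2 + 1) * Q ^ (m + 3) = (((m : ℝ) * r ^ 2 + 1) * Q ^ 3) * Q ^ m := by
        rw [pow_add]; ring
    _ ≤ 2 ^ m * Q ^ m := mul_le_mul_of_nonneg_right e6 (by positivity)
    _ = (2 * Q) ^ m := (mul_pow _ _ _).symm
    _ ≤ (r : ℝ) ^ m := pow_le_pow_left₀ (by positivity) hQr m

end Pool.Agent.H423R2.ZH.PASY
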