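import Mathlib
import Pool.Agent.H423R2.ZH.Stubs

set_option autoImplicit false

open Ne40b1b74 Finset

namespace Pool.Agent.H423R2.ZH.PCOD

theorem codlt : S_CODLT := by
  intro B n f hf
  induction n with
  | zero => simp
  | succ n ih =>
    rw [sum_range_succ, pow_succ]
    have h1 := hf n
    have h2 : (f n + 1) * B ^ n ≤ B * B ^ n := Nat.mul_le_mul_right _ h1
    calc _ < B ^ n + f n * B ^ n := by omega
      _ = (f n + 1) * B ^ n := by ring
      _ ≤ B * B ^ n := h2
      _ = B ^ n * B := mul_comm _ _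

theorem cod : S_COD := by
  intro B n f g hf hg
  induction n with
  | zero => intro _ i hi; omega
  | succ n ih =>
    intro h i hi
    rw [sum_range_succ, sum_range_succ] at h
    have h1 := codlt B n f hf
    have h2 := codlt B n g hg
    have hB : 0 < B ^ n := by omega
    have e1 : (∑ i ∈ range n, f i * B ^ i + f n * B ^ n) / B ^ n = f n := by
      rw [Nat.add_mul_div_right _ _ hB, Nat.div_eq_of_lt h1, zero_add]
    have e2 : (∑ i ∈ range n, g i * B ^ i + g n * B ^ n) / B ^ n = g n := by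
      rw [Nat.add_mul_div_right _ _ hB, Nat.div_eq_of_lt h2, zero_add]
    have hn : f n = g n := by rw [← e1, ← e2, h]
    rcases Nat.lt_succ_iff_lt_or_eq.mp hi with h3 | h3
    · apply ih _ i h3
      rw [hn] at h
      omega
    · rw [h3]; exact hn

theorem gle : S_GLE := by
  intro N A h1 h2
  apply le_csSup
  · refine ⟨N, ?_⟩
    rintro k ⟨A', h3, -, rfl⟩
    have := card_le_card h3
    simpa using this
  · exact ⟨A, h1, h2, rfl⟩

theorem sph : S_SPH := by
  classical
  intro m r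
  obtain ⟨Bx, hBx⟩ : ∃ Bx, Bx = Fintype.piFinset (fun _ : Fin m => range r) := ⟨_, rfl⟩
  have hmem : ∀ f, f ∈ Bx ↔ ∀ i, f i < r := by
    intro f; rw [hBx, Fintype.mem_piFinset]; simp
  have hcard : Bx.card = r ^ m := by
    rw [hBx, Fintype.card_piFinset]; simp
  have hmaps : ∀ f ∈ Bx, (∑ i, (f i) ^ 2) ∈ range (m * r ^ 2 + 1) := by
    intro f hf
    rw [mem_range]
    have h1 : ∑ i, (f i) ^ 2 ≤ ∑ _i : Fin m, r ^ 2 :=
      sum_le_sum (fun i _ => Nat.pow_le_pow_left ((hmem f).mp hf i).le 2)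
    simp at h1
    omega
  have hsum := card_eq_sum_card_fiberwise (f := fun f : Fin m → ℕ => ∑ i, (f i) ^ 2) hmaps
  obtain ⟨R, -, hR⟩ : ∃ R ∈ range (m * r ^ 2 + 1),
      Bx.card ≤ (Bx.filter (fun f => ∑ i, (f i) ^ 2 = R)).card * (m * r ^ 2 + 1) := by
    by_contra hcon
    push Not at hcon
    have hne : (range (m * r ^ 2 + 1)).Nonempty := ⟨0, by simp⟩
    have h2 : ∑ R ∈ range (m * r ^ 2 + 1),
        ((Bx.filter (fun f => ∑ i, (f i) ^ 2 = R)).card * (m * r ^ 2 + 1))
        < ∑ _R ∈ range (m * r ^ 2 + 1), Bx.card := sum_lt_sum_of_nonempty hne hcon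
    rw [← sum_mul, ← hsum] at h2
    simp at h2
    rw [mul_comm] at h2
    exact lt_irrefl _ h2
  refine ⟨Bx.filter (fun f => ∑ i, (f i) ^ 2 = R), ?_, ?_, ?_⟩
  · intro f hf i
    exact (hmem f).mp (mem_filter.mp hf).1 i
  · intro f hf g hg h hh e
    have hf2 := (mem_filter.mp hf).2
    have hg2 := (mem_filter.mp hg).2
    have hh2 := (mem_filter.mp hh).2
    have hfz : ∑ i, ((f i : ℤ)) ^ 2 = R := by exact_mod_cast hf2
    have hgz : ∑ i, ((g i : ℤ)) ^ 2 = R := by exact_mod_cast hg2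
    have hhz : ∑ i, ((h i : ℤ)) ^ 2 = R := by exact_mod_cast hh2
    have ez : ∀ i, 3 * (h i : ℤ) = 2 * f i + g i := by intro i; exact_mod_cast e i
    have key : ∑ i, ((f i : ℤ) - g i) ^ 2 = 0 := by
      have h1 : ∀ i, 2 * ((f i : ℤ) - g i) ^ 2
          = 6 * (f i : ℤ) ^ 2 + 3 * (g i : ℤ) ^ 2 - 9 * (h i : ℤ) ^ 2 := by
        intro i
        have : 9 * (h i : ℤ) ^ 2 = (2 * f i + g i) ^ 2 := by rw [← ez i]; ring
        rw [this]; ring
      have h2 : 2 * ∑ i, ((f i : ℤ) - g i) ^ 2 = 0 := by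
        rw [mul_sum]
        simp only [h1]
        rw [sum_sub_distrib, sum_add_distrib, ← mul_sum, ← mul_sum, ← mul_sum, hfz, hgz, hhz]
        ring
      omega
    rw [sum_eq_zero_iff_of_nonneg (fun i _ => sq_nonneg _)] at key
    funext i
    have h3 := key i (mem_univ i)
    have h4 : (f i : ℤ) - g i = 0 := pow_eq_zero_iff two_ne_zero |>.mp h3
    have h5 := ez i
    omega
  · rw [← hcard]; exact hR

end Pool.Agent.H423R2.ZH.PCOD
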