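import Mathlib
import Pool.Agent.H423R2.ZH.Stubs

set_option autoImplicit false
open Ne40b1b74 Finset

namespace Pool.Agent.H423R2.ZH.PENC

section
variable {F : Type} [Field F] {p m : ℕ} [Fact p.Prime]

/-- the digits of the point `(c, c², c³, c⁴)` -/
def dig (hm : 0 < m) (e : F ≃+ (Fin m → ZMod p)) (c : F) (i : ℕ) : ℕ :=
  (e (c ^ (i / m + 1)) ⟨i % m, Nat.mod_lt _ hm⟩).val

/-- the integer of the point -/
def code (hm : 0 < m) (e : F ≃+ (Fin m → ZMod p)) (c : F) : ℕ :=
  ∑ i ∈ range (4 * m), dig hm e c i * (6 * p) ^ i + 1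

theorem dig_lt (hm : 0 < m) (e : F ≃+ (Fin m → ZMod p)) (c : F) (i : ℕ) :
    dig hm e c i < p := ZMod.val_lt _

theorem dig_cast (hm : 0 < m) (e : F ≃+ (Fin m → ZMod p)) (c : F) (k : ℕ) (j : Fin m) :
    ((dig hm e c (j.1 + k * m) : ℕ) : ZMod p) = e (c ^ (k + 1)) j := by
  have h1 : (j.1 + k * m) / m = k := by
    rw [Nat.add_mul_div_right _ _ hm, Nat.div_eq_of_lt j.2, zero_add]
  have h2 : (j.1 + k * m) % m = j.1 := by
    rw [Nat.add_mul_mod_self_right, Nat.mod_eq_of_lt j.2]
  unfold dig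
  rw [ZMod.natCast_zmod_val, h1]
  exact congrArg _ (Fin.ext h2)

theorem solve (hC : S_COD) (hm : 0 < m) (e : F ≃+ (Fin m → ZMod p)) (x y z x' y' z' : F)
    (h : code hm e x + 2 * code hm e y + 3 * code hm e z
      = code hm e x' + 2 * code hm e y' + 3 * code hm e z') (k : ℕ) (hk : k < 4) :
    x ^ (k + 1) + 2 * y ^ (k + 1) + 3 * z ^ (k + 1)
      = x' ^ (k + 1) + 2 * y' ^ (k + 1) + 3 * z' ^ (k + 1) := by
  have comb : ∀ a b c : F, ∑ i ∈ range (4 * m),
      (dig hm e a i + 2 * dig hm e b i + 3 * dig hm e c i) * (6 * p) ^ i + 6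
      = code hm e a + 2 * code hm e b + 3 * code hm e c := by
    intro a b c
    unfold code
    have : ∀ i, (dig hm e a i + 2 * dig hm e b i + 3 * dig hm e c i) * (6 * p) ^ i
        = dig hm e a i * (6 * p) ^ i + 2 * (dig hm e b i * (6 * p) ^ i)
          + 3 * (dig hm e c i * (6 * p) ^ i) := by intro i; ring
    simp only [this, sum_add_distrib, ← mul_sum]
    ring
  have hlt : ∀ a b c : F, ∀ i,
      dig hm e a i + 2 * dig hm e b i + 3 * dig hm e c i < 6 * p := by
    intro a b c i
    have := dig_lt hm e a i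
    have := dig_lt hm e b i
    have := dig_lt hm e c i
    omega
  have hsum := hC (6 * p) (4 * m) _ _ (hlt x y z) (hlt x' y' z') (by
    have h1 := comb x y z
    have h2 := comb x' y' z'
    omega)
  have key : e (x ^ (k + 1) + (y ^ (k + 1) + y ^ (k + 1))
        + (z ^ (k + 1) + z ^ (k + 1) + z ^ (k + 1)))
      = e (x' ^ (k + 1) + (y' ^ (k + 1) + y' ^ (k + 1))
        + (z' ^ (k + 1) + z' ^ (k + 1) + z' ^ (k + 1))) := by
    ext j
    have hj : j.1 + k * m < 4 * m := by
      have := j.2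
      nlinarith
    have h3 := congrArg (Nat.cast : ℕ → ZMod p) (hsum _ hj)
    push_cast at h3
    rw [dig_cast, dig_cast, dig_cast, dig_cast, dig_cast, dig_cast] at h3
    simp only [map_add, Pi.add_apply]
    linear_combination h3
  have := e.injective key
  linear_combination this

theorem code_inj (hC : S_COD) (hm : 0 < m) (e : F ≃+ (Fin m → ZMod p)) (x y : F)
    (h : code hm e x = code hm e y) : x = y := by
  have hlt : ∀ a : F, ∀ i, dig hm e a i < 6 * p := by
    intro a i
    have := dig_lt hm e a i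
    omega
  have hsum := hC (6 * p) (4 * m) _ _ (hlt x) (hlt y) (by
    unfold code at h
    omega)
  have key : e (x ^ (0 + 1)) = e (y ^ (0 + 1)) := by
    ext j
    have hj : j.1 + 0 * m < 4 * m := by
      have := j.2
      omega
    have h3 := congrArg (Nat.cast : ℕ → ZMod p) (hsum _ hj)
    rw [dig_cast, dig_cast] at h3
    exact h3
  have := e.injective key
  simpa using this

theorem main (hA : S_ALG) (hS : S_SPH) (hC : S_COD) (hL : S_CODLT) [CharP F p]
    (hτ : ∀ τ : F, 4 * τ ^ 3 ≠ -5) (h5 : 5 < p) (r : ℕ) (hr : 3 * r ≤ p) (hm : 0 < m)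
    (e : F ≃+ (Fin m → ZMod p)) :
    ∃ A : Finset ℕ, A ⊆ Icc 1 ((6 * p) ^ (4 * m)) ∧ ZhaoSolutionFree A ∧
      r ^ m ≤ A.card * (m * r ^ 2 + 1) := by
  classical
  have hne : ∀ n : ℕ, 0 < n → n < p → ((n : ℕ) : F) ≠ 0 := by
    intro n h1 h2 h3
    rw [CharP.cast_eq_zero_iff F p n] at h3
    exact absurd (Nat.le_of_dvd h1 h3) (by omega)
  have n2 : (2 : F) ≠ 0 := by exact_mod_cast hne 2 (by norm_num) (by omega)
  have n3 : (3 : F) ≠ 0 := by exact_mod_cast hne 3 (by norm_num) (by omega)
  have n5 : (5 : F) ≠ 0 := by exact_mod_cast hne 5 (by norm_num) (by omega)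
  obtain ⟨S, hS1, hS2, hS3⟩ := hS m r
  -- elements
  obtain ⟨el, hel⟩ : ∃ el : (Fin m → ℕ) → F, ∀ f i, e (el f) i = ((f i : ℕ) : ZMod p) :=
    ⟨fun f => e.symm (fun i => ((f i : ℕ) : ZMod p)), by intro f i; simp⟩
  have elinj : ∀ f ∈ S, ∀ g ∈ S, el f = el g → f = g := by
    intro f hf g hg h
    funext i
    have h1 : ((f i : ℕ) : ZMod p) = ((g i : ℕ) : ZMod p) := by rw [← hel, ← hel, h]
    have h2 := hS1 f hf i
    have h3 := hS1 g hg i
    rw [ZMod.natCast_eq_natCast_iff] at h1
    exact Nat.ModEq.eq_of_lt_of_lt h1 (by omega) (by omega)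
  have inj : Set.InjOn (fun f => code hm e (el f)) (S : Set (Fin m → ℕ)) := by
    intro f hf g hg h
    exact elinj f hf g hg (code_inj hC hm e _ _ h)
  refine ⟨S.image (fun f => code hm e (el f)), ?_, ?_, ?_⟩
  · intro a ha
    obtain ⟨f, hf, rfl⟩ := mem_image.mp ha
    rw [mem_Icc]
    have := hL (6 * p) (4 * m) (dig hm e (el f)) (by
      intro i
      have := dig_lt hm e (el f) i
      omega)
    constructor
    · show 1 ≤ code hm e (el f)
      unfold code
      omega
    · show code hm e (el f) ≤ _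
      unfold code
      omega
  · intro a ha b hb c hc a' ha' b' hb' c' hc' h
    obtain ⟨x, hx, rfl⟩ := mem_image.mp ha
    obtain ⟨y, hy, rfl⟩ := mem_image.mp hb
    obtain ⟨z, hz, rfl⟩ := mem_image.mp hc
    obtain ⟨x', hx', rfl⟩ := mem_image.mp ha'
    obtain ⟨y', hy', rfl⟩ := mem_image.mp hb'
    obtain ⟨z', hz', rfl⟩ := mem_image.mp hc'
    have hs := solve hC hm e (el x) (el y) (el z) (el x') (el y') (el z') h
    have s1 := hs 0 (by norm_num)
    have s2 := hs 1 (by norm_num)
    have s3 := hs 2 (by norm_num)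
    have s4 := hs 3 (by norm_num)
    simp only [zero_add, pow_one] at s1
    norm_num at s2 s3 s4
    rcases hA F n2 n3 n5 hτ _ _ _ _ _ _ s1 s2 s3 s4 with ⟨q1, q2, q3⟩ | ⟨q1, q2, q3, q4⟩ | ⟨q1, q2⟩
    · intro a
      simp only [q1, q2, q3]
    · intro a
      have t1 : el y = el z' := q1.symm.trans q2
      have t2 : el y' = el z := q3.symm.trans q4
      simp only [q2, t1, q4, t2]
      split_ifs <;> rfl
    · exfalso
      apply q2
      have : z = z' := by
        apply hS2 z hz x' hx' z' hz'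
        intro i
        have g1 : e (el z' + el z' + el z') i = e (el z + el z + el x') i := by
          have : el z' + el z' + el z' = el z + el z + el x' := by linear_combination q1
          rw [this]
        simp only [map_add, Pi.add_apply, hel] at g1
        have g2 : ((z' i + z' i + z' i : ℕ) : ZMod p) = ((z i + z i + x' i : ℕ) : ZMod p) := by
          push_cast
          exact g1
        rw [ZMod.natCast_eq_natCast_iff] at g2
        have h1 := hS1 z hz i
        have h2 := hS1 z' hz' i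
        have h3 := hS1 x' hx' i
        have := Nat.ModEq.eq_of_lt_of_lt g2 (by omega) (by omega)
        omega
      rw [this]
  · rw [card_image_of_injOn inj]
    exact hS3

end

theorem enc (hT : S_TAU) (hA : S_ALG) (hS : S_SPH) (hC : S_COD) (hL : S_CODLT) : S_ENC := by
  intro p r m hp h5 hm hr
  haveI : Fact p.Prime := ⟨hp.1⟩
  have hm0 : m ≠ 0 := by rintro rfl; simp at hm
  haveI : Fintype (GaloisField p m) := Fintype.ofFinite _
  have hcard : Fintype.card (GaloisField p m) = p ^ m := by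
    rw [← Nat.card_eq_fintype_card]; exact GaloisField.card p m hm0
  have b : Module.Basis (Fin m) (ZMod p) (GaloisField p m) :=
    Module.finBasisOfFinrankEq (ZMod p) (GaloisField p m) (GaloisField.finrank p hm0)
  exact main hA hS hC hL (hT p hp h5 m hm (GaloisField p m) inferInstance hcard) h5 r hr
    (Nat.pos_of_ne_zero hm0) b.equivFun.toAddEquiv

end Pool.Agent.H423R2.ZH.PENC
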