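import Mathlib
import Pool.Agent.H423R2.ZH.Stubs

set_option autoImplicit false

open Filter Topology Ne40b1b74 Finset

namespace Pool.Agent.H423R2.ZH.PFIN

theorem fin : S_FIN := by
  intro hPR hENC hGLE hASY ε hε
  obtain ⟨ε', hε', h0, h14⟩ : ∃ ε' : ℝ, ε' ≤ ε ∧ 0 < ε' ∧ ε' < 1 / 4 := by
    refine ⟨min ε (1 / 8), min_le_left _ _, lt_min hε (by norm_num), ?_⟩
    exact lt_of_le_of_lt (min_le_right _ _) (by norm_num)
  obtain ⟨P0, hP0⟩ := hASY ε' h0 h14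
  obtain ⟨p, hp, hgood⟩ := hPR (max P0 5)
  have hpP : P0 < p := lt_of_le_of_lt (le_max_left _ _) hp
  have hp5 : 5 < p := lt_of_le_of_lt (le_max_right _ _) hp
  obtain ⟨r, hr1, hr2⟩ : ∃ r, 3 * r ≤ p ∧ p ≤ 6 * r := ⟨p / 3, by omega, by omega⟩
  obtain ⟨M0, hM0⟩ := hP0 p hpP.le r hr2
  have hQ1 : 1 < 6 * p := by omega
  filter_upwards [eventually_ge_atTop ((6 * p) ^ (4 * (3 * M0 + 4)))] with N hN
  have hNpos : 0 < N := lt_of_lt_of_le (pow_pos (by omega) _) hN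
  -- the exponent
  obtain ⟨L, hL⟩ : ∃ L, L = Nat.log (6 * p) N := ⟨_, rfl⟩
  have hL1 : (6 * p) ^ L ≤ N := by rw [hL]; exact Nat.pow_log_le_self _ hNpos.ne'
  have hL2 : N < (6 * p) ^ (L + 1) := by rw [hL]; exact Nat.lt_pow_succ_log_self hQ1 _
  have hL3 : 4 * (3 * M0 + 4) ≤ L := by
    rw [hL]; exact Nat.le_log_of_pow_le hQ1 hN
  obtain ⟨k, hk⟩ : ∃ k, k = (L - 4) / 12 := ⟨_, rfl⟩
  obtain ⟨m, hm⟩ : ∃ m, m = 3 * k + 1 := ⟨_, rfl⟩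
  have hm1 : m % 3 = 1 := by omega
  have hm2 : M0 ≤ m := by omega
  have hm3 : 4 * m ≤ L := by omega
  have hm4 : L + 1 ≤ 4 * (m + 3) := by omega
  obtain ⟨A, hA1, hA2, hA3⟩ := hENC p r m hgood hp5 hm1 hr1
  have hN1 : (6 * p) ^ (4 * m) ≤ N := (Nat.pow_le_pow_right (by omega) hm3).trans hL1
  have hN2 : N ≤ (6 * p) ^ (4 * (m + 3)) := hL2.le.trans (Nat.pow_le_pow_right (by omega) hm4)
  have hg := hGLE N A (hA1.trans (Icc_subset_Icc_right hN1)) hA2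
  have hM := hM0 m hm2
  have hN2' : (N : ℝ) ≤ (6 * (p : ℝ)) ^ (4 * ((m : ℝ) + 3)) := by
    have e : (4 * ((m : ℝ) + 3)) = ((4 * (m + 3) : ℕ) : ℝ) := by push_cast; ring
    rw [e, Real.rpow_natCast]
    exact_mod_cast hN2
  have hN1' : (1 : ℝ) ≤ N := by exact_mod_cast hNpos
  have s1 : (N : ℝ) ^ (1 / 4 - ε) ≤ (N : ℝ) ^ (1 / 4 - ε') :=
    Real.rpow_le_rpow_of_exponent_le hN1' (by linarith)
  have s2 : (N : ℝ) ^ (1 / 4 - ε') ≤ ((6 * (p : ℝ)) ^ (4 * ((m : ℝ) + 3))) ^ (1 / 4 - ε') :=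
    Real.rpow_le_rpow (by positivity) hN2' (by linarith)
  have s3 : (r : ℝ) ^ m ≤ (A.card : ℝ) * ((m : ℝ) * r ^ 2 + 1) := by exact_mod_cast hA3
  have s4 : (A.card : ℝ) ≤ (g N : ℝ) := by exact_mod_cast hg
  have hpos : (0 : ℝ) < (m : ℝ) * r ^ 2 + 1 := by positivity
  have s5 : ((m : ℝ) * r ^ 2 + 1) * (N : ℝ) ^ (1 / 4 - ε)
      ≤ ((m : ℝ) * r ^ 2 + 1) * (A.card : ℝ) := by
    calc _ ≤ ((m : ℝ) * r ^ 2 + 1) *
          ((6 * (p : ℝ)) ^ (4 * ((m : ℝ) + 3))) ^ (1 / 4 - ε') := by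
            apply mul_le_mul_of_nonneg_left (s1.trans s2) hpos.le
      _ ≤ (r : ℝ) ^ m := hM
      _ ≤ _ := by rw [mul_comm]; exact s3
  exact (le_of_mul_le_mul_left s5 hpos).trans s4

end Pool.Agent.H423R2.ZH.PFIN
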