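import Mathlib
import Pool.Agent.H423R2.ZH.Stubs

set_option autoImplicit false

open Filter Topology

namespace Pool.Agent.H423R2.ZH.PLIT

theorem lit : S_LIT := by
  intro G hG
  refine ⟨fun N => max 0 (1 / 4 - Real.log (G N) / Real.log N), ?_, ?_⟩
  · rw [Metric.tendsto_atTop]
    intro ε hε
    have h1 := (hG (ε / 2) (by positivity)).and (eventually_ge_atTop 2)
    rw [eventually_atTop] at h1
    obtain ⟨N0, hN0⟩ := h1
    refine ⟨N0, fun N hN => ?_⟩
    obtain ⟨h2, h3⟩ := hN0 N hN
    have hN2 : (2 : ℝ) ≤ N := by exact_mod_cast h3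
    have hNpos : (0 : ℝ) < N := by linarith
    have hlog : 0 < Real.log N := Real.log_pos (by linarith)
    have hGpos : 0 < G N := lt_of_lt_of_le (Real.rpow_pos_of_pos hNpos _) h2
    have h4 := Real.log_le_log (Real.rpow_pos_of_pos hNpos _) h2
    rw [Real.log_rpow hNpos] at h4
    have h5 : 1 / 4 - ε / 2 ≤ Real.log (G N) / Real.log N := by
      rw [le_div_iff₀ hlog]; exact h4
    rw [Real.dist_eq, sub_zero, abs_of_nonneg (le_max_left _ _)]
    apply max_lt hε
    linarith
  · filter_upwards [hG 1 one_pos, eventually_ge_atTop 2] with N h2 h3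
    have hN2 : (2 : ℝ) ≤ N := by exact_mod_cast h3
    have hNpos : (0 : ℝ) < N := by linarith
    have hlog : 0 < Real.log N := Real.log_pos (by linarith)
    have hGpos : 0 < G N := lt_of_lt_of_le (Real.rpow_pos_of_pos hNpos _) h2
    rw [← Real.log_le_log_iff (Real.rpow_pos_of_pos hNpos _) hGpos, Real.log_rpow hNpos,
      ← le_div_iff₀ hlog]
    have := le_max_right 0 (1 / 4 - Real.log (G N) / Real.log N)
    linarith

end Pool.Agent.H423R2.ZH.PLIT
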