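import Mathlib
import Pool.Agent.H423R2.ZH.Stubs

set_option autoImplicit false

open Finset

namespace Pool.Agent.H423R2.ZH.PPR

theorem aux : ∀ n : ℕ, n ≠ 0 → (∀ p : ℕ, p.Prime → p ∣ n → p % 9 = 1) → n % 9 = 1 := by
  intro n
  induction n using Nat.strong_induction_on with
  | _ n ih =>
    intro hn h
    by_cases h1 : n = 1
    · rw [h1]
    have hp := Nat.minFac_prime h1
    obtain ⟨k, hk⟩ := Nat.minFac_dvd n
    have hk0 : k ≠ 0 := by rintro rfl; simp at hk; exact hn hk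
    have hkn : k < n := by
      have h2 := hp.two_le
      have : 2 * k ≤ n := by
        calc 2 * k ≤ n.minFac * k := Nat.mul_le_mul_right _ h2
          _ = n := hk.symm
      omega
    have e1 := ih k hkn hk0 (fun p hp' hd => h p hp' (by rw [hk]; exact hd.mul_left _))
    have e2 := h n.minFac hp (Nat.minFac_dvd n)
    rw [hk, Nat.mul_mod, e1, e2]

theorem pr : S_PR := by
  classical
  intro n
  obtain ⟨P, hP⟩ : ∃ P, P = ∏ l ∈ (range (n + 6)).filter (fun l => l.Prime ∧ l ≠ 7), l := ⟨_, rfl⟩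
  have hPd : ∀ l, l.Prime → l ≠ 7 → l < n + 6 → l ∣ P := by
    intro l h1 h2 h3
    rw [hP]
    exact dvd_prod_of_mem _ (mem_filter.mpr ⟨mem_range.mpr h3, h1, h2⟩)
  have h7 : Nat.Prime 7 := by norm_num
  have hPc : Nat.Coprime P 7 := by
    rw [hP]
    apply Nat.Coprime.prod_left
    intro l hl
    obtain ⟨-, h1, h2⟩ := mem_filter.mp hl
    exact (Nat.coprime_primes h1 h7).mpr h2
  have hLc : Nat.Coprime (9 * P) 49 := by
    have : (49 : ℕ) = 7 ^ 2 := by norm_num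
    rw [this]
    exact Nat.Coprime.pow_right 2 (Nat.Coprime.mul_left (by norm_num) hPc)
  have htot : Nat.totient 49 = 42 := by
    have : (49 : ℕ) = 7 ^ 2 := by norm_num
    rw [this, Nat.totient_prime_pow h7 (by norm_num)]
    norm_num
  have hL : (9 * P) ^ 42 ≡ 1 [MOD 49] := by
    have := Nat.ModEq.pow_totient hLc
    rwa [htot] at this
  obtain ⟨c, hc⟩ : ∃ c, c = 6 * (9 * P) ^ 42 := ⟨_, rfl⟩
  have hc6 : c ≡ 6 [MOD 49] := by
    rw [hc]
    have := hL.mul_left 6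
    simpa using this
  have hPdc : P ∣ c := by
    rw [hc]
    exact (dvd_pow ((dvd_refl P).mul_left 9) (by norm_num)).mul_left 6
  have h9c : 9 ∣ c := by
    rw [hc]
    exact (dvd_pow ((dvd_refl 9).mul_right P) (by norm_num)).mul_left 6
  obtain ⟨W, hW⟩ : ∃ W, W = 100 * c ^ 6 + 10 * c ^ 3 + 1 := ⟨_, rfl⟩
  have hW49 : W ≡ 100 * 6 ^ 6 + 10 * 6 ^ 3 + 1 [MOD 49] := by
    rw [hW]
    exact (((hc6.pow 6).mul_left 100).add ((hc6.pow 3).mul_left 10)).add_right 1
  have hW49' : W % 49 = 21 := by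
    have := hW49
    unfold Nat.ModEq at this
    norm_num at this
    exact this
  have hW9 : W % 9 = 1 := by
    obtain ⟨d, hd⟩ := h9c
    have : W = 9 * (100 * (d * c ^ 5) + 10 * (d * c ^ 2)) + 1 := by
      rw [hW]
      have e1 : c ^ 6 = 9 * d * c ^ 5 := by rw [← hd]; ring
      have e2 : c ^ 3 = 9 * d * c ^ 2 := by rw [← hd]; ring
      rw [e1, e2]; ring
    omega
  obtain ⟨M, hM⟩ : ∃ M, W = 7 * M := ⟨W / 7, by omega⟩
  have hM0 : M ≠ 0 := by omega
  have hM9 : M % 9 ≠ 1 := by omega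
  have hM7 : ¬ 7 ∣ M := by omega
  obtain ⟨t, ht, htM, ht9⟩ : ∃ t : ℕ, t.Prime ∧ t ∣ M ∧ t % 9 ≠ 1 := by
    by_contra hcon
    push Not at hcon
    exact hM9 (aux M hM0 hcon)
  have htW : t ∣ W := by rw [hM]; exact htM.mul_left 7
  have ht7 : t ≠ 7 := by rintro rfl; exact hM7 htM
  have htc : ¬ t ∣ c := by
    intro h
    have h1 : t ∣ 100 * c ^ 6 + 10 * c ^ 3 :=
      dvd_add ((dvd_pow h (by norm_num)).mul_left _) ((dvd_pow h (by norm_num)).mul_left _)
    rw [hW] at htW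
    have h2 : t ∣ 1 := (Nat.dvd_add_right h1).mp htW
    exact ht.one_lt.ne' (Nat.dvd_one.mp h2)
  have htn : n + 6 ≤ t := by
    by_contra hcon
    push Not at hcon
    exact htc ((hPd t ht ht7 hcon).trans hPdc)
  haveI : Fact t.Prime := ⟨ht⟩
  have hX : (10 * (c : ZMod t) ^ 3) ^ 2 + 10 * (c : ZMod t) ^ 3 + 1 = 0 := by
    have h1 : ((W : ℕ) : ZMod t) = 0 := (ZMod.natCast_eq_zero_iff _ _).mpr htW
    rw [hW] at h1
    push_cast at h1
    linear_combination h1
  obtain ⟨X, hXd⟩ : ∃ X : ZMod t, X = 10 * (c : ZMod t) ^ 3 := ⟨_, rfl⟩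
  rw [← hXd] at hX
  have hX3 : X ^ 3 = 1 := by linear_combination (X - 1) * hX
  have hX1 : X ≠ 1 := by
    intro h
    rw [h] at hX
    have h3 : ((3 : ℕ) : ZMod t) = 0 := by push_cast; linear_combination hX
    rw [ZMod.natCast_eq_zero_iff] at h3
    have := Nat.le_of_dvd (by norm_num) h3
    omega
  have hX0 : X ≠ 0 := by
    intro h; rw [h] at hX3; norm_num at hX3
  haveI : Fact (Nat.Prime 3) := ⟨by norm_num⟩
  have hord : orderOf X = 3 := orderOf_eq_prime hX3 hX1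
  have hdv : orderOf X ∣ t - 1 := orderOf_dvd_of_pow_eq_one (ZMod.pow_card_sub_one_eq_one hX0)
  rw [hord] at hdv
  refine ⟨t, by omega, ht, by omega, ht9, c, ?_⟩
  rw [← hW]; exact htW

end Pool.Agent.H423R2.ZH.PPR
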