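import Mathlib
import Pool.Agent.H423R2.ZH.Stubs

set_option autoImplicit false

namespace Pool.Agent.H423R2.ZH.PTAU

theorem tau : S_TAU := by
  intro p hp h5 m hm F _ _ hchar hcard τ hτ
  obtain ⟨hprime, hp3, hp9, c, hc⟩ := hp
  haveI : Fact p.Prime := ⟨hprime⟩
  have hne : ∀ n : ℕ, 0 < n → n < p → ((n : ℕ) : F) ≠ 0 := by
    intro n h1 h2 h3
    rw [CharP.cast_eq_zero_iff F p n] at h3
    exact absurd (Nat.le_of_dvd h1 h3) (by omega)
  have n3 : (3 : F) ≠ 0 := by exact_mod_cast hne 3 (by norm_num) (by omega)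
  have hW : (100 * (c : F) ^ 6 + 10 * (c : F) ^ 3 + 1) = 0 := by
    have := (CharP.cast_eq_zero_iff F p (100 * c ^ 6 + 10 * c ^ 3 + 1)).mpr hc
    push_cast at this
    exact this
  obtain ⟨y, hy⟩ : ∃ y : F, y = -2 * τ * c := ⟨_, rfl⟩
  have hy3 : y ^ 3 = 10 * (c : F) ^ 3 := by
    rw [hy]; linear_combination (-2 * (c : F) ^ 3) * hτ
  have hX : (y ^ 3) ^ 2 + y ^ 3 + 1 = 0 := by rw [hy3]; linear_combination hW
  have hy9 : y ^ 9 = 1 := by linear_combination (y ^ 3 - 1) * hX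
  have hyn : y ^ 3 ≠ 1 := by
    intro h
    rw [h] at hX
    apply n3
    linear_combination hX
  have hord : orderOf y = 3 ^ (1 + 1) := by
    haveI : Fact (Nat.Prime 3) := ⟨by norm_num⟩
    apply orderOf_eq_prime_pow
    · simpa using hyn
    · simpa using hy9
  have hy0 : y ≠ 0 := by
    intro h; rw [h] at hy9; norm_num at hy9
  have hdvd : orderOf y ∣ Fintype.card F - 1 :=
    orderOf_dvd_of_pow_eq_one (FiniteField.pow_card_sub_one_eq_one y hy0)
  rw [hord, hcard] at hdvd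
  -- p ^ m % 9 = p % 9
  obtain ⟨k, rfl⟩ : ∃ k, m = 3 * k + 1 := ⟨m / 3, by omega⟩
  have hp3' : p ^ 3 % 9 = 1 := by
    have h : p % 9 = 1 ∨ p % 9 = 4 ∨ p % 9 = 7 := by omega
    rw [Nat.pow_mod]
    rcases h with h | h | h <;> rw [h]
  have hpm : p ^ (3 * k + 1) % 9 = p % 9 := by
    rw [pow_succ, pow_mul, Nat.mul_mod, Nat.pow_mod, hp3', one_pow]
    simp
  have hpos : 0 < p ^ (3 * k + 1) := pow_pos hprime.pos _
  obtain ⟨d, hd⟩ := hdvd
  norm_num at hd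
  omega

end Pool.Agent.H423R2.ZH.PTAU
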